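import Pool.Agent.helper36.MP.SpecC

/-! # mp:NOSL (helper70): arcs without slit directions are flat; periodicity -/

set_option autoImplicit false

open Complex Metric Set Filter Topology MeasureTheory

noncomputable section

namespace MPS

section
variable {k : ℕ} [NeZero k]

theorem NOSL_mono {b g : ZMod k → ℂ} {χ : ℂ → ℂ} {Ω Ω' : Set ℂ} (h : IsNat b g χ Ω)
    (hs : Ω' ⊆ Ω) : IsNat b g χ Ω' :=
  ⟨h.diff.mono hs, fun w hw => h.av w (hs hw), fun w hw => h.eq w (hs hw)⟩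

theorem NOSL_shift {b g : ZMod k → ℂ} {χ : ℂ → ℂ} {Ω : Set ℂ} (h : IsNat b g χ Ω) (a : ℂ) :
    IsNat b g (fun w => χ (w + a)) {w | w + a ∈ Ω} := by
  refine ⟨?_, fun w hw => h.av (w + a) hw, ?_⟩
  · exact h.diff.comp (differentiable_id.add_const a).differentiableOn (fun w hw => hw)
  · intro w hw
    rw [deriv_comp_add_const]
    exact h.eq (w + a) hw

theorem NOSL_local {b g : ZMod k → ℂ} {χ : ℂ → ℂ} {Ω : Set ℂ}
    (h : ∀ w ∈ Ω, ∃ (χ' : ℂ → ℂ) (Ω' : Set ℂ), IsOpen Ω' ∧ w ∈ Ω' ∧ IsNat b g χ' Ω' ∧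
      χ =ᶠ[𝓝 w] χ') : IsNat b g χ Ω := by
  refine ⟨?_, ?_, ?_⟩
  · intro w hw
    obtain ⟨χ', Ω', ho, hwo, hn, he⟩ := h w hw
    have h1 : DifferentiableAt ℂ χ' w := (hn.diff w hwo).differentiableAt (ho.mem_nhds hwo)
    exact (he.differentiableAt_iff.2 h1).differentiableWithinAt
  · intro w hw
    obtain ⟨χ', Ω', ho, hwo, hn, he⟩ := h w hw
    rw [he.eq_of_nhds]
    exact hn.av w hwo
  · intro w hw
    obtain ⟨χ', Ω', ho, hwo, hn, he⟩ := h w hw
    rw [he.eq_of_nhds, he.deriv_eq]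
    exact hn.eq w hwo

theorem NOSL_hat (ψ : ℂ → ℂ) (m : ℤ) (w : ℂ) :
    hat ψ (w + ((m : ℝ) * (2 * Real.pi) : ℝ) * I) = hat ψ w := by
  unfold hat
  congr 1
  have h : ((m : ℝ) * (2 * Real.pi) : ℝ) * I = (m : ℂ) * (2 * Real.pi * I) := by
    push_cast; ring
  rw [h, Complex.exp_add, Complex.exp_int_mul_two_pi_mul_I, mul_one]

theorem NOSL_HP (a : ℝ) (w : ℂ) : w + (a : ℂ) * I ∈ HP 0 ↔ w ∈ HP 0 := by
  unfold HP
  simp

theorem NOSL_flat_one {b g : ZMod k → ℂ} {ψ : ℂ → ℂ} {y r : ℝ} (m : ℤ)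
    (h : Flat b g ψ (y + m * (2 * Real.pi)) r) : Flat b g ψ y r := by
  obtain ⟨χ, hn, he⟩ := h
  refine ⟨fun w => χ (w + ((m : ℝ) * (2 * Real.pi) : ℝ) * I),
    NOSL_mono (NOSL_shift hn (((m : ℝ) * (2 * Real.pi) : ℝ) * I)) ?_, ?_⟩
  · rintro w (hw | hw)
    · exact Or.inl ((NOSL_HP _ w).2 hw)
    · refine Or.inr ?_
      rw [mem_ball, dist_eq_norm] at hw ⊢
      have : w + ((m : ℝ) * (2 * Real.pi) : ℝ) * I - ((y + m * (2 * Real.pi) : ℝ) : ℂ) * I =
          w - (y : ℂ) * I := by push_cast; ring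
      rwa [this]
  · intro w hw
    show χ _ = _
    rw [he ((NOSL_HP _ w).2 hw), NOSL_hat]

theorem NOSL_slit_one {b g : ZMod k → ℂ} {ψ : ℂ → ℂ} {y d : ℝ} (m : ℤ)
    (h : ¬ Slit b g ψ d (y + m * (2 * Real.pi))) : ¬ Slit b g ψ d y := by
  unfold Slit at h ⊢
  rw [not_not] at h ⊢
  obtain ⟨e, he, χ, hn, hχ⟩ := h
  refine ⟨e, he, fun w => χ (w + ((m : ℝ) * (2 * Real.pi) : ℝ) * I),
    NOSL_mono (NOSL_shift hn (((m : ℝ) * (2 * Real.pi) : ℝ) * I)) ?_, ?_⟩
  · rintro w (hw | hw)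
    · exact Or.inl ((NOSL_HP _ w).2 hw)
    · refine Or.inr ?_
      obtain ⟨h1, h2⟩ := hw
      have e1 : (w + ((m : ℝ) * (2 * Real.pi) : ℝ) * I).im = w.im + m * (2 * Real.pi) := by simp
      have e2 : (w + ((m : ℝ) * (2 * Real.pi) : ℝ) * I).re = w.re := by simp
      refine ⟨?_, ?_⟩
      · rw [e1]
        have : w.im + m * (2 * Real.pi) - (y + m * (2 * Real.pi)) = w.im - y := by ring
        rwa [this]
      · rwa [e2]
  · intro w hw
    show χ _ = _
    rw [hχ ((NOSL_HP _ w).2 hw), NOSL_hat]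

theorem NOSL_neg (y : ℝ) (m : ℤ) :
    y + m * (2 * Real.pi) + ((-m : ℤ) : ℝ) * (2 * Real.pi) = y := by push_cast; ring

/-- the strip domain -/
def NOSL_S (e y d : ℝ) : Set ℂ := {w | |w.im - y| < e ∧ w.re < d + e}

theorem NOSL_open_S (e y d : ℝ) : IsOpen (NOSL_S e y d) := by
  have h1 : IsOpen {w : ℂ | |w.im - y| < e} :=
    isOpen_lt ((Complex.continuous_im.sub continuous_const).abs) continuous_const
  have h2 : IsOpen {w : ℂ | w.re < d + e} := isOpen_lt Complex.continuous_re continuous_const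
  exact h1.inter h2

theorem NOSL_open_HP : IsOpen (HP 0) := isOpen_lt Complex.continuous_re continuous_const

/-- two extensions along strips agree on the common part -/
theorem NOSL_agree {b g : ZMod k → ℂ} {ψ : ℂ → ℂ} {y₁ y₂ d e₁ e₂ : ℝ} {χ₁ χ₂ : ℂ → ℂ}
    (h1 : IsNat b g χ₁ (HP 0 ∪ NOSL_S e₁ y₁ d)) (h1' : EqOn χ₁ (hat ψ) (HP 0))
    (h2 : IsNat b g χ₂ (HP 0 ∪ NOSL_S e₂ y₂ d)) (h2' : EqOn χ₂ (hat ψ) (HP 0))
    (w : ℂ) (hw1 : w ∈ NOSL_S e₁ y₁ d) (hw2 : w ∈ NOSL_S e₂ y₂ d) : χ₁ w = χ₂ w := by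
  set C : Set ℂ := NOSL_S e₁ y₁ d ∩ NOSL_S e₂ y₂ d with hC
  have hCo : IsOpen C := (NOSL_open_S _ _ _).inter (NOSL_open_S _ _ _)
  have hconv : ∀ e y : ℝ, Convex ℝ (NOSL_S e y d) := by
    intro e y
    have h3 : NOSL_S e y d = Complex.imLm ⁻¹' (Ioo (y - e) (y + e)) ∩
        Complex.reLm ⁻¹' (Iio (d + e)) := by
      ext z
      simp only [NOSL_S, mem_ofPred_eq, mem_inter_iff, mem_preimage, mem_Ioo, mem_Iio, abs_lt,
        Complex.imLm_coe, Complex.reLm_coe]
      constructor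
      · rintro ⟨⟨a1, a2⟩, a3⟩
        exact ⟨⟨by linarith, by linarith⟩, a3⟩
      · rintro ⟨⟨a1, a2⟩, a3⟩
        exact ⟨⟨by linarith, by linarith⟩, a3⟩
    rw [h3]
    exact ((convex_Ioo _ _).linear_preimage _).inter ((convex_Iio _).linear_preimage _)
  have hCc : Convex ℝ C := (hconv e₁ y₁).inter (hconv e₂ y₂)
  have hwC : w ∈ C := ⟨hw1, hw2⟩
  -- a point of C in HP 0
  set w₀ : ℂ := w - ((|w.re| + 1 : ℝ) : ℂ) with hw₀
  have hre : w₀.re < 0 := by
    rw [hw₀, Complex.sub_re, Complex.ofReal_re]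
    have := le_abs_self w.re
    linarith
  have hre2 : w₀.re ≤ w.re := by
    rw [hw₀, Complex.sub_re, Complex.ofReal_re]
    have := abs_nonneg w.re
    linarith
  have him : w₀.im = w.im := by
    rw [hw₀, Complex.sub_im, Complex.ofReal_im, sub_zero]
  have hw₀C : w₀ ∈ C := by
    refine ⟨⟨?_, ?_⟩, ⟨?_, ?_⟩⟩
    · rw [him]; exact hw1.1
    · exact lt_of_le_of_lt hre2 hw1.2
    · rw [him]; exact hw2.1
    · exact lt_of_le_of_lt hre2 hw2.2
  have hw₀H : w₀ ∈ HP 0 := by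
    show w₀.re < -0
    simpa using hre
  have ha1 : AnalyticOnNhd ℂ χ₁ C :=
    (h1.diff.mono (fun z hz => Or.inr hz.1)).analyticOnNhd hCo
  have ha2 : AnalyticOnNhd ℂ χ₂ C :=
    (h2.diff.mono (fun z hz => Or.inr hz.2)).analyticOnNhd hCo
  have hev : χ₁ =ᶠ[𝓝 w₀] χ₂ := by
    filter_upwards [NOSL_open_HP.mem_nhds hw₀H] with z hz
    rw [h1' hz, h2' hz]
  exact ha1.eqOn_of_preconnected_of_eventuallyEq ha2 hCc.isPreconnected hw₀C hev hwC

theorem NOSL_glue {b g : ZMod k → ℂ} {ψ : ℂ → ℂ} {y d : ℝ} (hd : 0 < d)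
    (h : ∀ y', |y' - y| < d → ¬ Slit b g ψ d y') : Flat b g ψ y d := by
  have h0 : ∀ y', |y' - y| < d → ∃ e > (0 : ℝ), ∃ χ : ℂ → ℂ,
      IsNat b g χ (HP 0 ∪ NOSL_S e y' d) ∧ EqOn χ (hat ψ) (HP 0) := by
    intro y' hy'
    have := h y' hy'
    unfold Slit at this
    rw [not_not] at this
    exact this
  classical
  have h1 : ∃ (E : ℝ → ℝ) (X : ℝ → ℂ → ℂ), ∀ y', |y' - y| < d → 0 < E y' ∧
      IsNat b g (X y') (HP 0 ∪ NOSL_S (E y') y' d) ∧ EqOn (X y') (hat ψ) (HP 0) := by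
    refine ⟨fun y' => if hy : |y' - y| < d then (h0 y' hy).choose else 0,
      fun y' => if hy : |y' - y| < d then (h0 y' hy).choose_spec.2.choose else 0, ?_⟩
    intro y' hy'
    simp only [dif_pos hy']
    exact ⟨(h0 y' hy').choose_spec.1, (h0 y' hy').choose_spec.2.choose_spec.1,
      (h0 y' hy').choose_spec.2.choose_spec.2⟩
  obtain ⟨E, X, hEX⟩ := h1
  refine ⟨fun w => if w.re < 0 then hat ψ w else X w.im w, ?_, ?_⟩
  · refine NOSL_local ?_
    intro w hw
    by_cases hwr : w.re < 0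
    · have hwH : w ∈ HP 0 := by
        show w.re < -0
        simpa using hwr
      obtain ⟨-, hn, he⟩ := hEX y (by rw [sub_self, abs_zero]; exact hd)
      refine ⟨X y, HP 0 ∪ NOSL_S (E y) y d, NOSL_open_HP.union (NOSL_open_S _ _ _),
        Or.inl hwH, hn, ?_⟩
      filter_upwards [NOSL_open_HP.mem_nhds hwH] with z hz
      have hz' : z.re < 0 := by
        have : z.re < -0 := hz
        simpa using this
      rw [if_pos hz', he hz]
    · have hwb : w ∈ ball ((y : ℂ) * I) d := by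
        rcases hw with hw | hw
        · exfalso
          apply hwr
          have : w.re < -0 := hw
          simpa using this
        · exact hw
      have hball : ∀ z ∈ ball ((y : ℂ) * I) d, |z.im - y| < d ∧ z.re < d := by
        intro z hz
        rw [mem_ball, dist_eq_norm] at hz
        have e1 : (z - (y : ℂ) * I).im = z.im - y := by simp
        have e2 : (z - (y : ℂ) * I).re = z.re := by simp
        refine ⟨?_, ?_⟩
        · rw [← e1]; exact lt_of_le_of_lt (Complex.abs_im_le_norm _) hz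
        · rw [← e2]
          exact lt_of_le_of_lt ((le_abs_self _).trans (Complex.abs_re_le_norm _)) hz
      obtain ⟨hwi, hwre⟩ := hball w hwb
      obtain ⟨hE0, hn, he⟩ := hEX w.im hwi
      have hwS : w ∈ NOSL_S (E w.im) w.im d := by
        refine ⟨?_, ?_⟩
        · rw [sub_self, abs_zero]; exact hE0
        · linarith
      refine ⟨X w.im, HP 0 ∪ NOSL_S (E w.im) w.im d, NOSL_open_HP.union (NOSL_open_S _ _ _),
        Or.inr hwS, hn, ?_⟩
      filter_upwards [(NOSL_open_S (E w.im) w.im d).mem_nhds hwS, isOpen_ball.mem_nhds hwb]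
        with z hzS hzb
      by_cases hzr : z.re < 0
      · have hzH : z ∈ HP 0 := by
          show z.re < -0
          simpa using hzr
        rw [if_pos hzr, he hzH]
      · rw [if_neg hzr]
        obtain ⟨hzi, hzre⟩ := hball z hzb
        obtain ⟨hE0', hn', he'⟩ := hEX z.im hzi
        refine NOSL_agree hn' he' hn he z ⟨?_, ?_⟩ hzS
        · rw [sub_self, abs_zero]; exact hE0'
        · linarith
  · intro w hw
    have hw' : w.re < 0 := by
      have : w.re < -0 := hw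
      simpa using this
    show (if w.re < 0 then hat ψ w else X w.im w) = _
    rw [if_pos hw']

end

theorem NOSL : NOSL_stmt := by
  intro k _ b g i ψ _
  refine ⟨?_, ?_, ?_, ?_, ?_⟩
  · intro y d hd h
    exact NOSL_glue hd h
  · intro y r m
    refine ⟨NOSL_flat_one m, fun h => NOSL_flat_one (-m) ?_⟩
    rwa [NOSL_neg]
  · intro y d m
    refine ⟨fun h => ?_, fun h => ?_⟩
    · by_contra hc
      refine NOSL_slit_one (y := y + m * (2 * Real.pi)) (-m) ?_ h
      rwa [NOSL_neg]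
    · by_contra hc
      exact NOSL_slit_one m hc h
  · intro y d hd h hcon
    obtain ⟨e, he, χ, hn, hχ⟩ := hcon
    refine h (min e d) (lt_min he hd) ⟨χ, NOSL_mono hn ?_, hχ⟩
    rintro w (hw | hw)
    · exact Or.inl hw
    · refine Or.inr ?_
      rw [mem_ball, dist_eq_norm] at hw
      have e1 : (w - (y : ℂ) * I).im = w.im - y := by simp
      have e2 : (w - (y : ℂ) * I).re = w.re := by simp
      refine ⟨?_, ?_⟩
      · rw [← e1]
        exact lt_of_lt_of_le (lt_of_le_of_lt (Complex.abs_im_le_norm _) hw) (min_le_left _ _)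
      · rw [← e2]
        have := lt_of_lt_of_le (lt_of_le_of_lt ((le_abs_self _).trans
          (Complex.abs_re_le_norm _)) hw) (min_le_right e d)
        linarith
  · rintro y r r' hr ⟨χ, hn, he⟩
    exact ⟨χ, NOSL_mono hn (union_subset_union_right _ (ball_subset_ball hr)), he⟩

end MPS
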