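import Pool.Agent.helper36.MP.SpecC

/-! # mp:PRC (helper70): the equation `q'^2 = 4 q` -/

set_option autoImplicit false

open Complex Metric Set Filter Topology MeasureTheory

noncomputable section

namespace MPS

/-- the continuous square root has derivative one -/
theorem PRC_der (a T : ℝ) (q q' : ℝ → ℂ)
    (hd : ∀ t ∈ Ioo a T, HasDerivAt q (q' t) t) (hc : ContinuousOn q' (Ioo a T))
    (he : ∀ t ∈ Ioo a T, q' t ^ 2 = 4 * q t ∧ q t ≠ 0) (t : ℝ) (ht : t ∈ Ioo a T) :
    HasDerivAt (fun s => q' s / 2) 1 t := by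
  have hr : q' t ≠ 0 := by
    intro h
    have h1 := (he t ht).1
    rw [h] at h1
    have h2 : q t = 0 := by
      have h3 : (4 : ℂ) * q t = 0 := by rw [← h1]; norm_num
      rcases mul_eq_zero.1 h3 with h4 | h4
      · norm_num at h4
      · exact h4
    exact (he t ht).2 h2
  have hn : Ioo a T ∈ 𝓝 t := isOpen_Ioo.mem_nhds ht
  have hcq : ContinuousAt q' t := hc.continuousAt hn
  rw [hasDerivAt_iff_tendsto_slope]
  have h1 : Tendsto (slope q t) (𝓝[≠] t) (𝓝 (q' t)) := hasDerivAt_iff_tendsto_slope.1 (hd t ht)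
  have h2 : Tendsto (fun s => q' s / 2 + q' t / 2) (𝓝[≠] t) (𝓝 (q' t / 2 + q' t / 2)) :=
    ((hcq.tendsto.mono_left nhdsWithin_le_nhds).div_const 2).add_const _
  have h3 : q' t / 2 + q' t / 2 = q' t := by ring
  rw [h3] at h2
  have h4 : Tendsto (fun s => slope q t s / (q' s / 2 + q' t / 2)) (𝓝[≠] t) (𝓝 (q' t / q' t)) :=
    h1.div h2 hr
  rw [div_self hr] at h4
  refine h4.congr' ?_
  have h5 : ∀ᶠ s in 𝓝[≠] t, q' s / 2 + q' t / 2 ≠ 0 := h2.eventually_ne hr
  have h6 : ∀ᶠ s in 𝓝[≠] t, s ∈ Ioo a T := mem_nhdsWithin_of_mem_nhds hn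
  filter_upwards [h5, h6] with s hs5 hs6
  rw [div_eq_iff hs5, slope_def_module, slope_def_module]
  have e1 : q s = (q' s / 2) ^ 2 := by
    have := (he s hs6).1
    linear_combination (-1 / 4 : ℂ) * this
  have e2 : q t = (q' t / 2) ^ 2 := by
    have := (he t ht).1
    linear_combination (-1 / 4 : ℂ) * this
  rw [e1, e2, smul_mul_assoc]
  congr 1
  ring

theorem PRC : PRC_stmt := by
  intro a T q q' haT hd hc he h0
  have hder := PRC_der a T q q' hd hc he
  have hconst : ∀ s ∈ Ioo a T, ∀ t ∈ Ioo a T, q' s / 2 - (s : ℂ) = q' t / 2 - (t : ℂ) := by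
    have hD : ∀ t ∈ Ioo a T, HasDerivAt (fun s : ℝ => q' s / 2 - (s : ℂ)) 0 t := by
      intro t ht
      have h0 : HasDerivAt (fun s : ℝ => (s : ℂ)) 1 t := by
        have h := (hasDerivAt_id t).ofReal_comp
        rw [Complex.ofReal_one] at h
        exact h
      have h1 : HasDerivAt (fun s : ℝ => q' s / 2 - (s : ℂ)) (1 - 1) t := (hder t ht).sub h0
      rwa [sub_self] at h1
    intro s hs t ht
    exact isOpen_Ioo.is_const_of_deriv_eq_zero isPreconnected_Ioo
      (fun x hx => (hD x hx).differentiableAt.differentiableWithinAt)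
      (fun x hx => (hD x hx).deriv) hs ht
  have key : ∀ t ∈ Ioo a T, q' t / 2 = ((t - T : ℝ) : ℂ) := by
    intro t ht
    have hq : ∀ s ∈ Ioo a T, q s = ((s : ℂ) + (q' t / 2 - (t : ℂ))) ^ 2 := by
      intro s hs
      have h1 := hconst s hs t ht
      have h2 := (he s hs).1
      have h3 : q' s / 2 = (s : ℂ) + (q' t / 2 - (t : ℂ)) := by linear_combination h1
      rw [← h3]
      linear_combination (-1 / 4 : ℂ) * h2
    have h4 : Tendsto (fun s : ℝ => ((s : ℂ) + (q' t / 2 - (t : ℂ))) ^ 2) (𝓝[<] T)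
        (𝓝 (((T : ℂ) + (q' t / 2 - (t : ℂ))) ^ 2)) := by
      have : Continuous (fun s : ℝ => ((s : ℂ) + (q' t / 2 - (t : ℂ))) ^ 2) := by fun_prop
      exact (this.tendsto T).mono_left nhdsWithin_le_nhds
    have h5 : Tendsto (fun s : ℝ => ((s : ℂ) + (q' t / 2 - (t : ℂ))) ^ 2) (𝓝[<] T) (𝓝 0) := by
      refine h0.congr' ?_
      filter_upwards [Ioo_mem_nhdsLT haT] with s hs
      exact hq s hs
    have h6 := tendsto_nhds_unique h4 h5
    have h7 : (T : ℂ) + (q' t / 2 - (t : ℂ)) = 0 := by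
      exact pow_eq_zero_iff (two_ne_zero) |>.1 h6
    push_cast
    linear_combination h7
  intro t ht
  have h1 := key t ht
  have h2 := (he t ht).1
  refine ⟨?_, ?_⟩
  · rw [← h1]
    linear_combination (-1 / 4 : ℂ) * h2
  · rw [← h1]; ring

end MPS
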